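import Pool.Agent.Y17.G.Defs
import Pool.Agent.Z419.Gen

/-!
# Z17G GEN3: the sum over all factorizations, norms `3 pr D1`, `3 pr D2`
-/

set_option autoImplicit false

namespace Pool.Agent.Y356.ZG

open Finset Matrix
open Pool.Agent.Z700 (fac pr od loc)
open Pool.Agent.Y17.N (Sp SB)
open Pool.Agent.Y17.G
open Pool.Agent.Z419.Gen (odd_sum fac2 fac7 od_eq split14 not_dvd_sq)

lemma sp_of {A : Finset ℕ} (hC : Cl A) {p : ℕ} (hp : p ∈ sp A) : Sp p := by
  obtain ⟨h1, h2⟩ := Finset.mem_filter.1 hp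
  rcases hC.1 p h1 with h | h
  · exact h
  · have := h.2.1
    omega

lemma in3_of {A : Finset ℕ} (hC : Cl A) {p : ℕ} (hp : p ∈ i3 A) : In p ∧ p % 8 = 3 := by
  obtain ⟨h1, h2⟩ := Finset.mem_filter.1 hp
  rcases hC.1 p h1 with h | h
  · have := h.2.1
    omega
  · exact ⟨h, h2⟩

lemma in5_of {A : Finset ℕ} (hC : Cl A) {p : ℕ} (hp : p ∈ i5 A) : In p ∧ p % 8 = 5 := by
  obtain ⟨h1, h2⟩ := Finset.mem_filter.1 hp
  rcases hC.1 p h1 with h | h
  · have := h.2.1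
    omega
  · exact ⟨h, h2⟩

lemma pr_pos {A : Finset ℕ} (hC : Cl A) : 0 < pr A := by
  unfold pr
  refine Finset.prod_pos fun p hp => ?_
  rcases hC.1 p hp with h | h <;> exact h.1.pos

lemma k2 {p : ℕ} (hp : p % 8 = 3 ∨ p % 8 = 5) : jacobiSym 2 p = -1 := by
  have h1 : Odd p := by
    rw [Nat.odd_iff]
    omega
  rw [jacobiSym.at_two h1, ZMod.χ₈_nat_eq_if_mod_eight]
  rw [if_neg (by omega), if_neg (by omega)]

lemma j2 {p : ℕ} (hp : Sp p) : jacobiSym 2 p = 1 := by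
  have h2 : p % 8 = 1 := hp.2.1
  have h1 : Odd p := by
    rw [Nat.odd_iff]
    omega
  rw [jacobiSym.at_two h1, ZMod.χ₈_nat_eq_if_mod_eight]
  rw [if_neg (by omega), if_pos (Or.inl h2)]

lemma j7 {p : ℕ} (hp : Sp p) : jacobiSym 7 p = 1 := by
  have h1 : p % 4 = 1 := by
    have := hp.2.1
    omega
  have h2 := jacobiSym.quadratic_reciprocity_one_mod_four h1 (show Odd 7 by decide)
  have h3 : ((7 : ℕ) : ℤ) = 7 := rfl
  rw [h3] at h2
  rw [← h2, jacobiSym.mod_left]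
  rcases hp.2.2 with h | h | h
  · have : ((p : ℤ) % ((7 : ℕ) : ℤ)) = 1 := by push_cast; omega
    rw [this]
    norm_num
  · have : ((p : ℤ) % ((7 : ℕ) : ℤ)) = 2 := by push_cast; omega
    rw [this]
    norm_num
  · have : ((p : ℤ) % ((7 : ℕ) : ℤ)) = 4 := by push_cast; omega
    rw [this]
    norm_num

lemma jac1 {p : ℕ} (hp : Sp p) (i j y : ℕ) :
    jacobiSym ((2 ^ i * 7 ^ j * y : ℕ) : ℤ) p = jacobiSym y p := by
  push_cast
  rw [jacobiSym.mul_left, jacobiSym.mul_left, jacobiSym.pow_left, jacobiSym.pow_left, j2 hp, j7 hp]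
  simp

lemma k7r {p : ℕ} (hp : p % 7 = 3 ∨ p % 7 = 5 ∨ p % 7 = 6) : jacobiSym (p : ℤ) 7 = -1 := by
  rw [jacobiSym.mod_left]
  rcases hp with h | h | h
  · have : ((p : ℤ) % ((7 : ℕ) : ℤ)) = 3 := by push_cast; omega
    rw [this]
    norm_num
  · have : ((p : ℤ) % ((7 : ℕ) : ℤ)) = 5 := by push_cast; omega
    rw [this]
    norm_num
  · have : ((p : ℤ) % ((7 : ℕ) : ℤ)) = 6 := by push_cast; omega
    rw [this]
    norm_num

lemma k7_3 {p : ℕ} (hp : In p) (h8 : p % 8 = 3) : jacobiSym 7 p = 1 := by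
  have h2 := jacobiSym.quadratic_reciprocity_three_mod_four (show (7 : ℕ) % 4 = 3 by norm_num)
    (show p % 4 = 3 by omega)
  have h3 : ((7 : ℕ) : ℤ) = 7 := rfl
  rw [h3, k7r hp.2.2, neg_neg] at h2
  exact h2

lemma k7_5 {p : ℕ} (hp : In p) (h8 : p % 8 = 5) : jacobiSym 7 p = -1 := by
  have h2 := jacobiSym.quadratic_reciprocity_one_mod_four (show p % 4 = 1 by omega)
    (show Odd 7 by decide)
  have h3 : ((7 : ℕ) : ℤ) = 7 := rfl
  rw [h3, k7r hp.2.2] at h2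
  exact h2.symm

lemma jac3 {p : ℕ} (hp : In p ∧ p % 8 = 3) (i j y : ℕ) :
    jacobiSym ((2 ^ i * 7 ^ j * y : ℕ) : ℤ) p = (-1) ^ i * jacobiSym y p := by
  push_cast
  rw [jacobiSym.mul_left, jacobiSym.mul_left, jacobiSym.pow_left, jacobiSym.pow_left,
    k2 (Or.inl hp.2), k7_3 hp.1 hp.2, one_pow, mul_one]

lemma jac5 {p : ℕ} (hp : In p ∧ p % 8 = 5) (i j y : ℕ) :
    jacobiSym ((2 ^ i * 7 ^ j * y : ℕ) : ℤ) p = (-1) ^ i * (-1) ^ j * jacobiSym y p := by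
  push_cast
  rw [jacobiSym.mul_left, jacobiSym.mul_left, jacobiSym.pow_left, jacobiSym.pow_left,
    k2 (Or.inr hp.2), k7_5 hp.1 hp.2]

lemma cond_eq {A : Finset ℕ} (hC : Cl A) (i j y : ℕ) :
    Cond ((2 ^ i * 7 ^ j * y : ℕ) : ℤ) A ↔ Cond (y : ℤ) A := by
  unfold Cond cnd
  refine and_congr ?_ (and_congr ?_ ?_)
  · refine forall₂_congr fun p hp => ?_
    simp only [jac1 (sp_of hC hp) i j y]
  · refine forall₂_congr fun r hr => forall₂_congr fun r' hr' => ?_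
    simp only [jac3 (in3_of hC hr) i j y, jac3 (in3_of hC hr') i j y]
    exact ⟨fun h => mul_left_cancel₀ (pow_ne_zero _ (by norm_num)) h, fun h => by rw [h]⟩
  · refine forall₂_congr fun r hr => forall₂_congr fun r' hr' => ?_
    simp only [jac5 (in5_of hC hr) i j y, jac5 (in5_of hC hr') i j y]
    exact ⟨fun h => mul_left_cancel₀ (mul_ne_zero (pow_ne_zero _ (by norm_num))
      (pow_ne_zero _ (by norm_num))) h, fun h => by rw [h]⟩

/-- squares up to fourteen -/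
lemma sq14 {A : Finset ℕ} (hC : Cl A) {D : ℕ} (hD : 0 < D) :
    (∃ y : ℕ, D = 14 * y ^ 2 ∧ Cond (y : ℤ) A) ↔
      (Odd (D.factorization 2) ∧ Odd (D.factorization 7) ∧
        ∃ y : ℕ, od D = y ^ 2 ∧ Cond (y : ℤ) A) := by
  constructor
  · rintro ⟨y, hy, hj⟩
    have hy0 : y ≠ 0 := by rintro rfl; simp at hy; omega
    obtain ⟨i, j, z, h2, h7, rfl⟩ := split14 hy0
    have e : D = 2 ^ (2 * i + 1) * 7 ^ (2 * j + 1) * z ^ 2 := by rw [hy]; ring
    rw [e, fac2 (not_dvd_sq Nat.prime_two h2), fac7 (not_dvd_sq (by norm_num) h7),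
      od_eq (not_dvd_sq Nat.prime_two h2) (not_dvd_sq (by norm_num) h7)]
    exact ⟨⟨i, rfl⟩, ⟨j, rfl⟩, z, rfl, (cond_eq hC i j z).1 hj⟩
  · rintro ⟨⟨i, hi⟩, ⟨j, hj⟩, y, hy, hjac⟩
    obtain ⟨a, c, z, h2, h7, hDe⟩ := split14 hD.ne'
    rw [hDe, fac2 h2] at hi
    rw [hDe, fac7 h7] at hj
    rw [hDe, od_eq h2 h7] at hy
    refine ⟨2 ^ i * 7 ^ j * y, ?_, (cond_eq hC i j y).2 hjac⟩
    rw [hDe, hi, hj, hy]
    ring

lemma mem_FixR {ρ : ZMod 7} {A : Finset ℕ} {b : ℤ} : b ∈ FixR ρ A ↔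
    b ∈ Ioo (-(9 * (pr A : ℤ))) (9 * (pr A : ℤ)) ∧
    (b % 4 = 1 ∧ (b : ZMod 7) = ρ ∧ ¬ (3 : ℤ) ∣ b ∧
    ∃ y ∈ range (9 * pr A), 9 * (pr A : ℤ) = b ^ 2 + 14 * (y : ℤ) ^ 2 ∧ Cond (y : ℤ) A) := by
  unfold FixR
  simp only [Finset.mem_filter]

theorem t_GEN3G (h : S_GENb3G) : S_GEN3G := by
  intro A hC hT hne
  classical
  set m : ℕ := pr A with hm
  have hmpos : 0 < pr A := pr_pos hC
  obtain ⟨ρ, hρ⟩ : ∃ ρ : ZMod 7, ρ = -(4 * bt A) := ⟨_, rfl⟩
  rw [← hρ]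
  let Db : ℤ → ℕ := fun b => (9 * (m : ℤ) - b ^ 2).toNat
  let I : Finset ℤ := (Ioo (-(9 * (m : ℤ))) (9 * (m : ℤ))).filter fun b : ℤ =>
    b % 4 = 1 ∧ (b : ZMod 7) = ρ ∧ 0 < Db b
  have hSB : ∀ D1 ∈ adm 0 A, SB (3 * pr D1) (3 * pr (A \ D1)) ρ 1 =
      ∑ b ∈ I, loc (3 * pr D1) (Db b) := by
    intro D1 hD1
    have hD1' : D1 ⊆ A := Finset.mem_powerset.1 (Finset.mem_filter.1 hD1).1
    have e1 : pr D1 * pr (A \ D1) = m := by
      rw [hm]
      unfold pr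
      rw [mul_comm]
      exact Finset.prod_sdiff hD1'
    have e3 : (((3 * pr D1 : ℕ) : ℤ) * ((3 * pr (A \ D1) : ℕ) : ℤ)) = 9 * (m : ℤ) := by
      rw [← e1]
      push_cast
      ring
    unfold SB
    rw [e3]
    refine Finset.sum_congr ?_ fun b _ => rfl
    ext b
    simp only [I, Finset.mem_filter]
    have h4 : (4 : ℤ) ∣ b - 1 ↔ b % 4 = 1 := by omega
    have h5 : b ^ 2 < 9 * (m : ℤ) ↔ 0 < Db b := by
      show _ ↔ 0 < (9 * (m : ℤ) - b ^ 2).toNat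
      omega
    rw [h4, h5]
  rw [Finset.sum_congr rfl hSB, Finset.sum_comm]
  have key : ∀ b ∈ I, ∃ n : ℤ, ∑ D1 ∈ adm 0 A, loc (3 * pr D1) (Db b) = 2 ^ ex A * n ∧
      (Odd n ↔ b ∈ FixR ρ A) := by
    intro b hb
    obtain ⟨hb0, hb4, hb7, hbD⟩ := Finset.mem_filter.1 hb
    have hDz : ((Db b : ℕ) : ℤ) = 9 * (pr A : ℤ) - b ^ 2 := by
      have h1 : 0 < (9 * (m : ℤ) - b ^ 2) := by
        have : 0 < (9 * (m : ℤ) - b ^ 2).toNat := hbD
        omega
      show (((9 * (m : ℤ) - b ^ 2).toNat : ℕ) : ℤ) = _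
      rw [Int.toNat_of_nonneg h1.le]
    have hfix : b ∈ FixR ρ A ↔
        (¬ (3 : ℤ) ∣ b ∧ ∃ y : ℕ, Db b = 14 * y ^ 2 ∧ Cond (y : ℤ) A) := by
      rw [mem_FixR]
      constructor
      · rintro ⟨_, _, _, h3, y, _, hy, hj⟩
        refine ⟨h3, y, ?_, hj⟩
        have : ((Db b : ℕ) : ℤ) = ((14 * y ^ 2 : ℕ) : ℤ) := by
          rw [hDz, hy]
          push_cast
          ring
        exact_mod_cast this
      · rintro ⟨h3, y, hy, hj⟩
        refine ⟨hb0, hb4, hb7, h3, y, ?_, ?_, hj⟩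
        · rw [Finset.mem_range]
          have h1 : ((14 * y ^ 2 : ℕ) : ℤ) = 9 * (pr A : ℤ) - b ^ 2 := by rw [← hy, hDz]
          have h2 : 14 * y ^ 2 ≤ 9 * pr A := by
            have : ((14 * y ^ 2 : ℕ) : ℤ) ≤ ((9 * pr A : ℕ) : ℤ) := by
              rw [h1]
              push_cast
              nlinarith
            exact_mod_cast this
          nlinarith
        · have h1 : ((14 * y ^ 2 : ℕ) : ℤ) = 9 * (pr A : ℤ) - b ^ 2 := by rw [← hy, hDz]
          push_cast at h1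
          linarith
    rw [hfix, sq14 hC hbD]
    by_cases h2 : Odd ((Db b).factorization 2)
    · obtain ⟨n, hn, hodd⟩ := h A hC hT hne b (by rw [Int.odd_iff]; omega) (Db b) hbD hDz h2
      refine ⟨((Db b).factorization 7 : ℤ) * n, ?_, ?_⟩
      · have e1 : ∀ D1 ∈ adm 0 A, loc (3 * pr D1) (Db b) =
            ((Db b).factorization 7 : ℤ) *
              ∏ l ∈ ((Db b).primeFactors.erase 2).erase 7, fac (3 * pr D1) (Db b) l := by
          intro D1 _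
          unfold loc
          rw [if_pos h2]
        rw [Finset.sum_congr rfl e1, ← Finset.mul_sum, hn]
        ring
      · rw [Int.odd_mul]
        have e2 : Odd (((Db b).factorization 7 : ℕ) : ℤ) ↔ Odd ((Db b).factorization 7) :=
          Int.odd_coe_nat _
        rw [e2]
        constructor
        · rintro ⟨h7, hn1⟩
          obtain ⟨k1, k2⟩ := (hodd h7).1 hn1
          exact ⟨k1, h2, h7, k2⟩
        · rintro ⟨k1, -, h7, k2⟩
          exact ⟨h7, (hodd h7).2 ⟨k1, k2⟩⟩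
    · refine ⟨0, ?_, ?_⟩
      · have e1 : ∀ D1 ∈ adm 0 A, loc (3 * pr D1) (Db b) = 0 := by
          intro D1 _
          unfold loc
          rw [if_neg h2]
        rw [Finset.sum_congr rfl e1]
        simp
      · constructor
        · intro h0
          simp at h0
        · rintro ⟨_, h3, _⟩
          exact absurd h3 h2
  choose! nb hnb1 hnb2 using key
  refine ⟨∑ b ∈ I, nb b, ?_, ?_⟩
  · rw [Finset.sum_congr rfl hnb1, Finset.mul_sum]
  · rw [odd_sum I nb (fun b => b ∈ FixR ρ A) hnb2]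
    have e1 : I.filter (fun b => b ∈ FixR ρ A) = FixR ρ A := by
      ext b
      rw [Finset.mem_filter]
      constructor
      · exact fun h => h.2
      · intro hb
        refine ⟨?_, hb⟩
        obtain ⟨hb0, hb4, hb7, h3, y, _, hy, _⟩ := mem_FixR.1 hb
        refine Finset.mem_filter.2 ⟨hb0, hb4, hb7, ?_⟩
        show 0 < (9 * (m : ℤ) - b ^ 2).toNat
        rw [hm, hy]
        have hy0 : (y : ℤ) ≠ 0 := by
          intro h0
          rw [h0] at hy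
          apply h3
          have h4 : (3 : ℤ) ∣ b ^ 2 := ⟨3 * (pr A : ℤ), by linarith⟩
          exact Int.prime_three.dvd_of_dvd_pow h4
        have : 0 < 14 * (y : ℤ) ^ 2 := by positivity
        omega
    rw [e1]

end Pool.Agent.Y356.ZG
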