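import Pool.Agent.Z705.Defs
import Pool.Agent.Y356.ZG.Gen3G

/-!
# Z705 GEN: the sum over all admissible factorizations
-/

set_option autoImplicit false

namespace Pool.Agent.Y356.ZG

open Finset Matrix
open Pool.Agent.Z700 (fac pr od)
open Pool.Agent.Z701 (wt)
open Pool.Agent.Y17.N (Sp)
open Pool.Agent.Y17.G
open Pool.Agent.Z705 (RM dm)
open Pool.Agent.Z419.Gen (odd_sum fac2 fac7 od_eq split14 not_dvd_sq)

theorem t_GEN (h : Pool.Agent.Z705.S_GENb) : Pool.Agent.Z705.S_GEN := by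
  intro A hC hT hne
  classical
  set m : ℕ := pr A with hm
  have hmpos : 0 < pr A := pr_pos hC
  obtain ⟨ρ, hρ⟩ : ∃ ρ : ZMod 7, ρ = -(4 * bt A) := ⟨_, rfl⟩
  rw [← hρ]
  let Db : ℤ → ℕ := fun b => (9 * (m : ℤ) - b ^ 2).toNat
  let I : Finset ℤ := (Ioo (-(9 * (m : ℤ))) (9 * (m : ℤ))).filter fun b : ℤ =>
    b % 4 = 1 ∧ (b : ZMod 7) = ρ ∧ 0 < Db b
  have hRR : ∀ D1 ∈ adm 0 A, RM (pr D1) (pr (A \ D1)) ρ =
      ∑ b ∈ I, wt (pr D1) (pr (A \ D1)) b * Pool.Agent.Z700.loc (3 * pr D1) (Db b) := by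
    intro D1 hD1
    have hD1' : D1 ⊆ A := Finset.mem_powerset.1 (Finset.mem_filter.1 hD1).1
    have e1 : pr D1 * pr (A \ D1) = m := by
      rw [hm]
      unfold pr
      rw [mul_comm]
      exact Finset.prod_sdiff hD1'
    have e3 : (9 * (pr D1 : ℤ) * (pr (A \ D1) : ℤ)) = 9 * (m : ℤ) := by
      rw [← e1]
      push_cast
      ring
    unfold Pool.Agent.Z705.RM Pool.Agent.Z705.dm
    rw [e3]
  rw [Finset.sum_congr rfl hRR, Finset.sum_comm]
  have key : ∀ b ∈ I, ∃ n : ℤ, ∑ D1 ∈ adm 0 A, wt (pr D1) (pr (A \ D1)) b *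
        Pool.Agent.Z700.loc (3 * pr D1) (Db b) = 2 ^ ex A * n ∧
      (Odd n ↔ b ∈ FixR ρ A) := by
    intro b hb
    obtain ⟨hb0, hb4, hb7, hbD⟩ := Finset.mem_filter.1 hb
    have hDz : ((Db b : ℕ) : ℤ) = 9 * (pr A : ℤ) - b ^ 2 := by
      have h1 : 0 < (9 * (m : ℤ) - b ^ 2) := by
        have : 0 < (9 * (m : ℤ) - b ^ 2).toNat := hbD
        omega
      show (((9 * (m : ℤ) - b ^ 2).toNat : ℕ) : ℤ) = _
      rw [Int.toNat_of_nonneg h1.le]
    have hfix : b ∈ FixR ρ A ↔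
        (¬ (3 : ℤ) ∣ b ∧ ∃ y : ℕ, Db b = 14 * y ^ 2 ∧ Cond (y : ℤ) A) := by
      rw [mem_FixR]
      constructor
      · rintro ⟨_, _, _, h3, y, _, hy, hj⟩
        refine ⟨h3, y, ?_, hj⟩
        have : ((Db b : ℕ) : ℤ) = ((14 * y ^ 2 : ℕ) : ℤ) := by
          rw [hDz, hy]
          push_cast
          ring
        exact_mod_cast this
      · rintro ⟨h3, y, hy, hj⟩
        refine ⟨hb0, hb4, hb7, h3, y, ?_, ?_, hj⟩
        · rw [Finset.mem_range]
          have h1 : ((14 * y ^ 2 : ℕ) : ℤ) = 9 * (pr A : ℤ) - b ^ 2 := by rw [← hy, hDz]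
          have h2 : 14 * y ^ 2 ≤ 9 * pr A := by
            have : ((14 * y ^ 2 : ℕ) : ℤ) ≤ ((9 * pr A : ℕ) : ℤ) := by
              rw [h1]
              push_cast
              nlinarith
            exact_mod_cast this
          nlinarith
        · have h1 : ((14 * y ^ 2 : ℕ) : ℤ) = 9 * (pr A : ℤ) - b ^ 2 := by rw [← hy, hDz]
          push_cast at h1
          linarith
    rw [hfix, sq14 hC hbD]
    by_cases h2 : Odd ((Db b).factorization 2)
    · obtain ⟨n, hn, hodd⟩ := h A hC hT hne b (by rw [Int.odd_iff]; omega) (Db b) hbD hDz h2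
      refine ⟨((Db b).factorization 7 : ℤ) * n, ?_, ?_⟩
      · have e1 : ∀ D1 ∈ adm 0 A, wt (pr D1) (pr (A \ D1)) b *
              Pool.Agent.Z700.loc (3 * pr D1) (Db b) =
            ((Db b).factorization 7 : ℤ) * (wt (pr D1) (pr (A \ D1)) b *
              ∏ l ∈ ((Db b).primeFactors.erase 2).erase 7, fac (3 * pr D1) (Db b) l) := by
          intro D1 _
          unfold Pool.Agent.Z700.loc
          rw [if_pos h2]
          ring
        rw [Finset.sum_congr rfl e1, ← Finset.mul_sum, hn]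
        ring
      · rw [Int.odd_mul]
        have e2 : Odd (((Db b).factorization 7 : ℕ) : ℤ) ↔ Odd ((Db b).factorization 7) :=
          Int.odd_coe_nat _
        rw [e2]
        constructor
        · rintro ⟨h7, hn1⟩
          obtain ⟨k1, k2⟩ := (hodd h7).1 hn1
          exact ⟨k1, h2, h7, k2⟩
        · rintro ⟨k1, -, h7, k2⟩
          exact ⟨h7, (hodd h7).2 ⟨k1, k2⟩⟩
    · refine ⟨0, ?_, ?_⟩
      · have e1 : ∀ D1 ∈ adm 0 A, wt (pr D1) (pr (A \ D1)) b *
            Pool.Agent.Z700.loc (3 * pr D1) (Db b) = 0 := by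
          intro D1 _
          unfold Pool.Agent.Z700.loc
          rw [if_neg h2, mul_zero]
        rw [Finset.sum_congr rfl e1]
        simp
      · constructor
        · intro h0
          simp at h0
        · rintro ⟨_, h3, _⟩
          exact absurd h3 h2
  choose! nb hnb1 hnb2 using key
  refine ⟨∑ b ∈ I, nb b, ?_, ?_⟩
  · rw [Finset.sum_congr rfl hnb1, Finset.mul_sum]
  · rw [odd_sum I nb (fun b => b ∈ FixR ρ A) hnb2]
    have e1 : I.filter (fun b => b ∈ FixR ρ A) = FixR ρ A := by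
      ext b
      rw [Finset.mem_filter]
      constructor
      · exact fun h => h.2
      · intro hb
        refine ⟨?_, hb⟩
        obtain ⟨hb0, hb4, hb7, h3, y, _, hy, _⟩ := mem_FixR.1 hb
        refine Finset.mem_filter.2 ⟨hb0, hb4, hb7, ?_⟩
        show 0 < (9 * (m : ℤ) - b ^ 2).toNat
        rw [hm, hy]
        have hy0 : (y : ℤ) ≠ 0 := by
          intro h0
          rw [h0] at hy
          apply h3
          have h4 : (3 : ℤ) ∣ b ^ 2 := ⟨3 * (pr A : ℤ), by linarith⟩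
          exact Int.prime_three.dvd_of_dvd_pow h4
        have : 0 < 14 * (y : ℤ) ^ 2 := by positivity
        omega
    rw [e1]

end Pool.Agent.Y356.ZG
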